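import Pool.Agent.K4H54.MZ.Frozen

/-!
# The dimension formula for multiple zeta values: asymptotically in one sequence of weights implies
# all weights

`Z w` is the `ℚ`-space spanned by the multiple zeta values of weight `w` and `H w` is the part of
degree `w` of `ℚ[π²] ⊗ (shuffle algebra in f_3, f_5, …)`, with the product `mulH` (definitions of the
frozen statement). `D w` is the dimension of `H w`, and `Q1` is the conclusion of the frozen
statement `S18971`: the graded algebras `⊕ Z w` and `⊕ H w` are isomorphic (`Q1` is equivalent to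
the frozen statement: `Pool.Agent.K4H54.MZ.frozen_iff`).

A period map `per` is a `ℚ`-linear map from `⊕ H w` to the real numbers, multiplicative, with
`per 1 = 1` and `per (H w) = Z w` for all `w`. It exists by the theorems of Deligne and Goncharov,
Terasoma, and Brown.

Theorem. Let `per` be a period map.
* If `per x = 0` for some nonzero `x` of degree `m` then `dim Z (m + k) ≤ D (m + k) - D k` for all `k`.
* `Q1` holds if and only if for every `ε > 0` there are arbitrarily large weights `k` with
  `dim Z k ≥ (1 - ε) D k`.

So the formula `dim Z k = D k` of Zagier for ALL weights, and Q1, follow from `dim Z k ~ D k` along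
any sequence of weights; if Q1 is false then `dim Z k ≤ (1 - c) D k` for some `c > 0` and all large
`k`. The proof: the shuffle algebra has no zero divisors (the largest word of a shuffle product is
strictly monotone in the factors), `D (k + 3) = D (k + 1) + D k`, so `D (m + k) ≤ 2 ^ m D k`.
-/

set_option autoImplicit false

namespace Pool.Agent.Results.MP_f3dc73_nt.AsymptoticDimension

open Pool.Agent.K4H54.MZ Module

/-- **The dimension formula for all weights follows from its asymptotic form along a sequence of
weights.** -/
theorem result :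
    (∀ w, finrank ℚ (H w) = D w) ∧
    (D 0 = 1 ∧ D 1 = 0 ∧ D 2 = 1 ∧ ∀ k, D (k + 3) = D (k + 1) + D k) ∧
    ∀ per : (Bas →₀ ℚ) →ₗ[ℚ] ℝ, IsPeriodMap per →
      (∀ m, (∃ x ∈ H m, x ≠ 0 ∧ per x = 0) →
        ∀ k, finrank ℚ (Z (m + k)) + D k ≤ D (m + k)) ∧
      (Q1 ↔ ∀ ε : ℝ, 0 < ε → ∀ k₀ : ℕ, ∃ k ≥ k₀,
        (1 - ε) * (D k : ℝ) ≤ (finrank ℚ (Z k) : ℝ)) := by
  refine ⟨finrank_H, ⟨D_zero, D_one, D_two, D_rec⟩, fun per hper => ⟨?_, Q1_iff hper⟩⟩
  rintro m ⟨x, hx, hx0, hp⟩ k
  exact loss hper hx hx0 hp k

end Pool.Agent.Results.MP_f3dc73_nt.AsymptoticDimension
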