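import Pool.Agent.K4H31.MZ.Fin
import Pool.Agent.K4H31.MZ.Short

/-!
# A recursive inequality for the numbers of linearly independent multiple zeta values

`Z k` is the `ℚ`-space spanned by the multiple zeta values of weight `k`, `H k` the part of degree
`k` of `ℚ[π²] ⊗ (shuffle algebra in f_3, f_5, …)`, with the product `mulH` (definitions of the frozen
statement), `D k` the dimension of `H k`, and `Q1` the conclusion of the frozen statement `S18971`:
the graded algebras `⊕ Z k` and `⊕ H k` are isomorphic. All these definitions, and that of a period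
map, are in the file `Pool.Agent.K4H54.MZ.Def` and `Pool.Agent.K4H54.MZ.Main`; a period map is a
`ℚ`-linear map from `⊕ H k` to the real numbers, multiplicative, with `per 1 = 1` and
`per (H k) = Z k` for all `k`. It exists by the theorems of Deligne and Goncharov, Terasoma, and Brown.
`P n` are the Perrin numbers `3, 0, 2, 3, 2, 5, 5, 7, 10, 12, …`, `P (n + 3) = P (n + 1) + P n`
(`Pool.Agent.K4H31.MZ.P`).

Theorem. Suppose there is a period map.
* `k dim Z_k ≤ ∑_{n = 1}^k P(n) dim Z_{k - n}` for all `k`; Q1 holds if and only if there is equality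
  for all `k`.
* There is `δ ∈ [0, 1]` such that the relative dimensions `dim Z_k / D_k` have the mean value `δ`,
  `limsup dim Z_k / D_k ≤ δ`, and for every `ε > 0` the weights `k` with `dim Z_k / D_k < δ - ε` have
  density `0`; so `dim Z_k / D_k → δ` along a set of weights of density one. Q1 holds if and only if
  `δ = 1`.
* A loss in one weight: `D_k - dim Z_k ≥ (D_m - dim Z_m) (2 D_{k-m-2} / (m+2) + 3 D_{k-m-3} / (m+3))`
  for all `k ≥ m + 3`.

The proof: `ℚ[π²] ⊗ (shuffle algebra)` is a graded polynomial algebra (proved here by a theorem of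
Leray for algebras with derivations), the leading monomials of the elements of a homogeneous ideal
are closed under multiplication by monomials, and `∑ weight (y)`, over all the pairs `(y, r)` of a
variable `y` and `r ≥ 1` such that `y ^ r` divides the monomial `m`, is the weight of `m`. The number
`∑ weight (y)` over the pairs with `y ^ r` of weight `n` is the Perrin number `P(n)`.
-/

set_option autoImplicit false

namespace Pool.Agent.Results.MP_f3dc73_nt.MeanRelativeDimension

open Pool.Agent.K4H54.MZ Pool.Agent.K4H31.MZ Module Finset Filter Topology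

/-- **The recursive inequality, and the mean relative dimension of multiple zeta values.** -/
theorem result (per : (Bas →₀ ℚ) →ₗ[ℚ] ℝ) (hper : IsPeriodMap per) :
    (∀ k : ℕ, k * finrank ℚ (Z k) ≤ ∑ n ∈ Icc 1 k, P n * finrank ℚ (Z (k - n))) ∧
    (Q1 ↔ ∀ k : ℕ, k * finrank ℚ (Z k) = ∑ n ∈ Icc 1 k, P n * finrank ℚ (Z (k - n))) ∧
    (∃ δ : ℝ, 0 ≤ δ ∧ δ ≤ 1 ∧ (Q1 ↔ δ = 1) ∧
      Tendsto (fun N : ℕ => (∑ k ∈ range N, (finrank ℚ (Z k) : ℝ) / (D k : ℝ)) / (N : ℝ))
        atTop (𝓝 δ) ∧
      (∀ ε : ℝ, 0 < ε → ∀ᶠ k in atTop, (finrank ℚ (Z k) : ℝ) / (D k : ℝ) ≤ δ + ε) ∧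
      (∀ ε : ℝ, 0 < ε → Tendsto (fun N : ℕ => (((range N).filter fun k =>
        (finrank ℚ (Z k) : ℝ) / (D k : ℝ) < δ - ε).card : ℝ) / (N : ℝ)) atTop (𝓝 0))) ∧
    (∀ m j : ℕ, (D m - finrank ℚ (Z m)) * (2 * (m + 3) * D (j + 1) + 3 * (m + 2) * D j) ≤
      (m + 2) * (m + 3) * (D (m + j + 3) - finrank ℚ (Z (m + j + 3)))) := by
  refine ⟨ineq hper, Q1_iff_eq hper, ?_, ?_⟩
  · obtain ⟨δ, h0, h1, h2, h3, h4⟩ := mean hper
    exact ⟨δ, h0, h1, Q1_iff_mean hper h2, h2, h3, h4⟩
  · apply shortfall (fun k => D k - finrank ℚ (Z k)) D P D_zero D_one D_two D_rec conv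
    intro k
    have h1 := ineq hper k
    have h2 := conv k
    have h3 : ∑ n ∈ Icc 1 k, P n * finrank ℚ (Z (k - n)) +
        ∑ n ∈ Icc 1 k, P n * (D (k - n) - finrank ℚ (Z (k - n))) = k * D k := by
      rw [h2, ← sum_add_distrib]
      refine sum_congr rfl fun n _ => ?_
      rw [← mul_add, Nat.add_sub_cancel' (le_D hper _)]
    have h4 : k * finrank ℚ (Z k) + k * (D k - finrank ℚ (Z k)) = k * D k := by
      rw [← mul_add, Nat.add_sub_cancel' (le_D hper _)]
    omega

end Pool.Agent.Results.MP_f3dc73_nt.MeanRelativeDimension
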