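import Pool.Agent.K4H66.MV.F
import Pool.Agent.K4H66.MV.P1
import Pool.Agent.K4H66.MV.P4
import Pool.Agent.K4H90.MZ.Per

set_option autoImplicit false

/-!
# The structure conjecture for multiple zeta values without the grading

`Z w` is the `ℚ`-space spanned by the multiple zeta values of weight `w` and `H w` is the part of
degree `w` of `H = ℚ[π²] ⊗ (shuffle algebra in f_3, f_5, …)`, with the product `mulH` (definitions of the
frozen statement). `D w` is the dimension of `H w`, and `Q1` is the conclusion of the frozen
statement `S18971`: the graded algebras `⊕ Z w` and `⊕ H w` are isomorphic (`Q1` is equivalent to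
the frozen statement: `Pool.Agent.K4H54.MZ.frozen_iff`).

A period map `per` is a `ℚ`-linear map from `H` to the real numbers, multiplicative, with
`per 1 = 1` and `per (H w) = Z w` for all `w`. Part (A) assumes nothing but `Q1`. In part (B) a period map with
`per π² = π²` is given; it exists by the theorems of Deligne and Goncharov, Terasoma, and Brown.
-/

namespace Pool.Agent.Results.MP_f3dc73_nt.OneRelation

open Finset Module Pool.Agent.K4H54.MZ Pool.Agent.K4H66.MV

/-- the normalised period `per(f_u) / π^|u|` of the word `f_u = f_(2 u_1 + 3) f_(2 u_2 + 3) …`, where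
`|u| = Σ (2 u_i + 3)` is its weight -/
noncomputable def normPeriod (per : (Bas →₀ ℚ) →ₗ[ℚ] ℝ) (u : List ℕ) : ℝ :=
  per (Finsupp.single (0, u) 1) / Real.pi ^ (u.map fun a => 2 * a + 3).sum

/-- the span of the multiple zeta values of weight `k` over the field of algebraic numbers -/
noncomputable def algSpan (k : ℕ) : Submodule (algebraicClosure ℚ ℂ) ℂ :=
  Submodule.span (algebraicClosure ℚ ℂ) ((fun x : ℝ => (x : ℂ)) '' (Z k : Set ℝ))

/-- the space `Z 0 + Z 1 + … + Z N` of real numbers -/
noncomputable def upTo (N : ℕ) : Submodule ℚ ℝ := ⨆ k : ℕ, ⨆ _ : k ≤ N, Z k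

lemma norm_eq (per : (Bas →₀ ℚ) →ₗ[ℚ] ℝ) : normPeriod per = vn per := by
  funext u
  unfold normPeriod vn ro wt
  simp

/-- (A) Suppose `Q1` holds. Then for every `k` the span of the multiple zeta values of weight `k` over the field of
algebraic numbers has dimension `D k`. Either `dim (Z 0 + … + Z N) = D 0 + … + D N` for all `N` (the sum is direct),
or for some `a ≥ 1` `dim (Z 0 + … + Z N) = (D 0 + … + D N) - (D 0 + … + D (N - a))` for all `N`. There is a period map
with `per π² = π²`; for every period map with `per π² = π²` the normalised periods of all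
words (of all weights at once) are linearly independent over the algebraic numbers, and all rational relations
between multiple zeta values, also those mixing different weights, are the multiples of one of them: there is `F` in
`H` with `per x = 0` iff `x` is a multiple of `F`.
(B) Let `per` be a period map with `per π² = π²`. The following are equivalent: (a) `Q1`; (b) the normalised periods
of all words are linearly independent over `ℚ`; (c) they are linearly independent over the field of algebraic
numbers; (d) for every `k` the span of the multiple zeta values of weight `k` over the field of algebraic numbers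
has dimension `D k`. -/
theorem result :
    (Q1 → (∀ k, finrank (algebraicClosure ℚ ℂ) (algSpan k) = D k) ∧
      ((∀ N, finrank ℚ (upTo N) = ∑ k ∈ range (N + 1), D k) ∨
        ∃ a : ℕ, 1 ≤ a ∧ ∀ N, finrank ℚ (upTo N) + ∑ k ∈ range (N + 1 - a), D k =
          ∑ k ∈ range (N + 1), D k) ∧
      (∃ per : (Bas →₀ ℚ) →ₗ[ℚ] ℝ, IsPeriodMap per ∧ per (Finsupp.single (1, []) 1) = Real.pi ^ 2) ∧
      ∀ per : (Bas →₀ ℚ) →ₗ[ℚ] ℝ, IsPeriodMap per → per (Finsupp.single (1, []) 1) = Real.pi ^ 2 →
        LinearIndependent (algebraicClosure ℚ ℂ) (fun u : List ℕ => ((normPeriod per u : ℝ) : ℂ)) ∧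
        ∃ F : Bas →₀ ℚ, ∀ x : Bas →₀ ℚ, per x = 0 ↔ ∃ y, x = mulH F y) ∧
    ∀ per : (Bas →₀ ℚ) →ₗ[ℚ] ℝ, IsPeriodMap per → per (Finsupp.single (1, []) 1) = Real.pi ^ 2 →
      List.TFAE [Q1, LinearIndependent ℚ (normPeriod per),
        LinearIndependent (algebraicClosure ℚ ℂ) (fun u : List ℕ => ((normPeriod per u : ℝ) : ℂ)),
        ∀ k, finrank (algebraicClosure ℚ ℂ) (algSpan k) = D k] := by
  have hB : ∀ per : (Bas →₀ ℚ) →ₗ[ℚ] ℝ, IsPeriodMap per → per (Finsupp.single (1, []) 1) = Real.pi ^ 2 →
      List.TFAE [Q1, LinearIndependent ℚ (normPeriod per),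
        LinearIndependent (algebraicClosure ℚ ℂ) (fun u : List ℕ => ((normPeriod per u : ℝ) : ℂ)),
        ∀ k, finrank (algebraicClosure ℚ ℂ) (algSpan k) = D k] := by
    intro per hper hpi
    rw [norm_eq]
    exact Q1_tfae P4_holds hper hpi
  refine ⟨fun h => ?_, hB⟩
  obtain ⟨per, hper, hpi⟩ := Pool.Agent.K4H90.MZ.per_of_Q1 h
  refine ⟨((hB per hper hpi).out 0 3).1 h, (one_relation P1_holds P4_holds hper h).2, ⟨per, hper, hpi⟩,
    fun per' hper' hpi' => ⟨((hB per' hper' hpi').out 0 2).1 h, (one_relation P1_holds P4_holds hper' h).1⟩⟩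

end Pool.Agent.Results.MP_f3dc73_nt.OneRelation
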