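import Pool.Agent.K4H31.MZ.ZOne
import Pool.Agent.K4H31.MZ.ZGen

/-!
# Zero-one laws for multiple zeta values in bounded length

`Z k` is the `ℚ`-space spanned by the multiple zeta values of weight `k`, `H k` the part of degree
`k` of `ℚ[π²] ⊗ (shuffle algebra in f_3, f_5, …)`, with the product `mulH` (definitions of the frozen
statement), and `Q1` the conclusion of the frozen statement `S18971`: the graded algebras `⊕ Z k` and
`⊕ H k` are isomorphic. These definitions, and that of a period map, are in the files
`Pool.Agent.K4H54.MZ.Def` and `Pool.Agent.K4H54.MZ.Main`; a period map is a `ℚ`-linear map from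
`⊕ H k` to the real numbers, multiplicative, with `per 1 = 1` and `per (H k) = Z k` for all `k`. It
exists by the theorems of Deligne and Goncharov, Terasoma, and Brown.

`U r k` (`Pool.Agent.K4H31.MZ.U`) is the part of weight `k` of the subalgebra generated by `π²` and
the words with at most `r` letters: the span of the products (for `mulH`) of basis elements with at
most `r` letters whose weights have the sum `k`. `U 1` is `ℚ[π², f_3, f_5, f_7, …]`, and
`H k = ⋃ U r k`.

`wodd = (2, 3, 5, 7, 9, …)`, `zodd = (π², ζ(3), ζ(5), ζ(7), …)`, `VV wodd zodd k` is the `ℚ`-span of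
the products of weight `k` of these numbers, and `cnt wodd univ k` the number of these products, that
is the number of partitions of `k` into parts `2, 3, 5, 7, 9, …`.

Theorem.
* The products of `π²` and odd zeta values of weight `k` are linearly independent over `ℚ` for all
  `k`, or the dimension of their span is `o` (their number) for `k → ∞`.
* Suppose there is a period map `per`. Let `r ≥ 1`. Then `per` is injective on `U r k` for all `k`,
  or `dim per (U r k) / dim (U r k) → 0` for `k → ∞`.
* Q1 holds if and only if for every `r ≥ 1` there is `c > 0` such that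
  `dim per (U r k) ≥ c dim (U r k) > 0` for infinitely many `k`.

So a positive proportion, however small, of the expected number of linearly independent values, in
infinitely many weights, for every bound of the length, is enough for the structure conjecture.

The proof: `U r` is a polynomial algebra (Leray's theorem, proved here for algebras with derivations)
with at most `2 ^ r (n + 1) ^ (r + 1)` generators of degree `n`, and this bound implies
`dim (U r k) / dim (U r (k + m)) → 1`; one relation of weight `m` gives at least `dim (U r k)`
relations of weight `k + m`.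
-/

set_option autoImplicit false

namespace Pool.Agent.Results.MP_f3dc73_nt.ZeroOneLaws

open Pool.Agent.K4H54.MZ Pool.Agent.K4H31.MZ Module Filter Topology

/-- **Zero-one laws, and Q1 from positive proportions in bounded length.** -/
theorem result :
    ((∀ k, finrank ℚ (VV wodd zodd k) = cnt wodd Set.univ k) ∨
      Tendsto (fun k : ℕ => (finrank ℚ (VV wodd zodd k) : ℝ) / (cnt wodd Set.univ k : ℝ))
        atTop (𝓝 0)) ∧
    ∀ per : (Bas →₀ ℚ) →ₗ[ℚ] ℝ, IsPeriodMap per →
      (∀ r : ℕ, 1 ≤ r → (∀ k, ∀ x ∈ U r k, per x = 0 → x = 0) ∨
        Tendsto (fun k : ℕ => (finrank ℚ ((U r k).map per) : ℝ) / (finrank ℚ (U r k) : ℝ))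
          atTop (𝓝 0)) ∧
      (Q1 ↔ ∀ r : ℕ, 1 ≤ r → ∃ c : ℝ, 0 < c ∧ ∃ᶠ k : ℕ in atTop,
        0 < finrank ℚ (U r k) ∧
          c * (finrank ℚ (U r k) : ℝ) ≤ (finrank ℚ ((U r k).map per) : ℝ)) :=
  ⟨odd_zero_one, fun _ hper => ⟨fun r hr => zero_one hper r hr, Q1_iff_prop hper⟩⟩

end Pool.Agent.Results.MP_f3dc73_nt.ZeroOneLaws
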